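import Pool.Agent.H168R3.Lower

/-! `f(n) = 3n - 1` for every `n ≥ 1`. -/

namespace Pool.Agent.Results.MP_42cd19_co.RamseyNumber

open Pool.Agent.H168R2.NNDefs Pool.Agent.H168R3

/-- The Ramsey number for monochromatic non-nested matchings is `f(n) = 3n - 1` for every `n ≥ 1`:
every 2-colouring of the edges of the ordered `K_m` contains a monochromatic non-nested matching
with `n` edges if and only if `m ≥ 3n - 1`. -/
theorem result : ∀ n : ℕ, 1 ≤ n → f n = 3 * n - 1 ∧ ∀ m : ℕ, Arrows m n ↔ 3 * n - 1 ≤ m := by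
  intro n hn
  have hiff : ∀ m : ℕ, Arrows m n ↔ 3 * n - 1 ≤ m := by
    intro m
    constructor
    · intro h
      by_contra hlt
      exact not_arrows_of_lt (not_le.1 hlt) h
    · exact arrows_of_le hn
  refine ⟨?_, hiff⟩
  apply le_antisymm
  · exact Nat.sInf_le ⟨by omega, (hiff _).2 le_rfl⟩
  · refine le_csInf ⟨3 * n - 1, by omega, (hiff _).2 le_rfl⟩ ?_
    rintro m ⟨-, h⟩
    exact (hiff m).1 h

end Pool.Agent.Results.MP_42cd19_co.RamseyNumber
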